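import Mathlib

/-!
# Colin de Verdière parameter: linear algebra of one-negative-eigenvalue matrices

Basic facts used in the proof of the theorem on maximum corank versus `μ(G)` (MP_765e2d_co).
-/

set_option autoImplicit false
set_option linter.unusedSectionVars false

namespace Pool.Agent.CdV

open Matrix Finset Filter Topology


theorem eventually_ker_le {E F : Type*} [AddCommGroup E] [Module ℝ E] [FiniteDimensional ℝ E]
    [NormedAddCommGroup F] [NormedSpace ℝ F] [FiniteDimensional ℝ F]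
    {α : Type*} {l : Filter α} (L : α → (E →ₗ[ℝ] F)) (L0 : E →ₗ[ℝ] F)
    (hL : ∀ x : E, Tendsto (fun a => L a x) l (𝓝 (L0 x))) :
    ∀ᶠ a in l, Module.finrank ℝ (LinearMap.ker (L a)) ≤ Module.finrank ℝ (LinearMap.ker L0) := by
  classical
  set b := Module.finBasis ℝ (LinearMap.range L0) with hb
  have hpre : ∀ i, ∃ e : E, L0 e = (b i : F) := fun i => (b i).2
  choose e he using hpre
  have hli : LinearIndependent ℝ (fun i => L0 (e i)) := by
    have h1 : LinearIndependent ℝ (fun i => ((b i : LinearMap.range L0) : F)) :=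
      b.linearIndependent.map' (LinearMap.range L0).subtype (Submodule.ker_subtype _)
    have h2 : (fun i => L0 (e i)) = (fun i => ((b i : LinearMap.range L0) : F)) := funext he
    rw [h2]; exact h1
  have htend : Tendsto (fun a => fun i => L a (e i)) l (𝓝 (fun i => L0 (e i))) :=
    tendsto_pi_nhds.2 (fun i => hL (e i))
  have hev := htend.eventually (LinearIndependent.eventually (𝕜 := ℝ) hli)
  refine hev.mono (fun a ha => ?_)
  have h3 : Module.finrank ℝ (LinearMap.range L0) ≤ Module.finrank ℝ (LinearMap.range (L a)) := by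
    have h4 : LinearIndependent ℝ (fun i => (⟨L a (e i), ⟨e i, rfl⟩⟩ : LinearMap.range (L a))) := by
      apply LinearIndependent.of_comp (LinearMap.range (L a)).subtype
      exact ha
    have := h4.fintype_card_le_finrank
    simpa using this
  have h5 := LinearMap.finrank_range_add_finrank_ker (L a)
  have h6 := LinearMap.finrank_range_add_finrank_ker L0
  omega

variable {V : Type*} [Fintype V] [DecidableEq V]


/-- quadratic form in the eigenbasis -/
theorem exists_diag (M : Matrix V V ℝ) (h : M.IsHermitian) :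
    ∃ U : Matrix V V ℝ, Uᵀ * U = 1 ∧ U * Uᵀ = 1 ∧
      M = U * diagonal h.eigenvalues * Uᵀ := by
  refine ⟨(h.eigenvectorUnitary : Matrix V V ℝ), ?_, ?_, ?_⟩
  · have := Unitary.coe_star_mul_self h.eigenvectorUnitary
    simpa [Matrix.star_eq_conjTranspose, Matrix.conjTranspose_eq_transpose_of_trivial] using this
  · have := Unitary.coe_mul_star_self h.eigenvectorUnitary
    simpa [Matrix.star_eq_conjTranspose, Matrix.conjTranspose_eq_transpose_of_trivial] using this
  · have := h.spectral_theorem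
    simpa [Matrix.star_eq_conjTranspose, Matrix.conjTranspose_eq_transpose_of_trivial, Unitary.conjStarAlgAut_apply] using this

theorem inertia_iff (M : Matrix V V ℝ) (h : M.IsHermitian) :
    (Finset.univ.filter (fun i => h.eigenvalues i < 0)).card = 1 ↔
      (∃ m : V → ℝ, ∀ x : V → ℝ, 0 ≤ x ⬝ᵥ (M *ᵥ x) + (m ⬝ᵥ x) ^ 2) ∧
        ∃ z : V → ℝ, z ⬝ᵥ (M *ᵥ z) < 0 := by
  obtain ⟨U, hU1, hU2, hM⟩ := exists_diag M h
  set lam := h.eigenvalues with hlam
  -- q(x) = Σ λ_i (Uᵀx)_i²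
  have hq : ∀ x : V → ℝ, x ⬝ᵥ (M *ᵥ x) = ∑ i, lam i * ((Uᵀ *ᵥ x) i) ^ 2 := by
    intro x
    have e1 : M *ᵥ x = U *ᵥ (diagonal lam *ᵥ (Uᵀ *ᵥ x)) := by
      rw [hM, mulVec_mulVec, mulVec_mulVec, Matrix.mul_assoc]
    rw [e1, dotProduct_mulVec, ← mulVec_transpose]
    simp only [dotProduct, mulVec_diagonal]
    exact Finset.sum_congr rfl (fun i _ => by ring)
  have hq' : ∀ y : V → ℝ, (U *ᵥ y) ⬝ᵥ (M *ᵥ (U *ᵥ y)) = ∑ i, lam i * (y i) ^ 2 := by
    intro y
    rw [hq, mulVec_mulVec, hU1, one_mulVec]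
  constructor
  · intro hc
    rw [Finset.card_eq_one] at hc
    obtain ⟨i0, hi0⟩ := hc
    have hneg : ∀ i, lam i < 0 ↔ i = i0 := by
      intro i
      have : i ∈ Finset.univ.filter (fun i => lam i < 0) ↔ i ∈ ({i0} : Finset V) := by rw [hi0]
      simpa using this
    have hi0neg : lam i0 < 0 := (hneg i0).2 rfl
    refine ⟨⟨fun j => Real.sqrt (- lam i0) * U j i0, ?_⟩, ⟨U *ᵥ Pi.single i0 1, ?_⟩⟩
    · intro x
      have e2 : (fun j => Real.sqrt (- lam i0) * U j i0) ⬝ᵥ x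
          = Real.sqrt (- lam i0) * (Uᵀ *ᵥ x) i0 := by
        simp only [dotProduct, mulVec, transpose_apply, Finset.mul_sum]
        exact Finset.sum_congr rfl (fun i _ => by ring)
      rw [e2, hq, mul_pow, Real.sq_sqrt (by linarith), ← Finset.add_sum_erase _ _ (Finset.mem_univ i0)]
      have : 0 ≤ ∑ i ∈ Finset.univ.erase i0, lam i * ((Uᵀ *ᵥ x) i) ^ 2 := by
        apply Finset.sum_nonneg
        intro i hi
        have hne : i ≠ i0 := (Finset.mem_erase.1 hi).1
        have : 0 ≤ lam i := by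
          by_contra hh
          exact hne ((hneg i).1 (not_le.1 hh))
        positivity
      linarith
    · rw [hq']
      rw [Finset.sum_eq_single i0]
      · simpa using hi0neg
      · intro b _ hb
        simp [Pi.single_eq_of_ne hb]
      · intro hh; exact absurd (Finset.mem_univ _) hh
  · rintro ⟨⟨m, hm⟩, ⟨z, hz⟩⟩
    have hex : ∃ i, lam i < 0 := by
      by_contra hno
      push Not at hno
      rw [hq] at hz
      have : 0 ≤ ∑ i, lam i * ((Uᵀ *ᵥ z) i) ^ 2 :=
        Finset.sum_nonneg (fun i _ => mul_nonneg (hno i) (sq_nonneg _))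
      linarith
    obtain ⟨i0, hi0⟩ := hex
    rw [Finset.card_eq_one]
    refine ⟨i0, ?_⟩
    ext j
    simp only [Finset.mem_filter, Finset.mem_univ, true_and, Finset.mem_singleton]
    constructor
    · intro hj
      by_contra hne
      set a := m ⬝ᵥ (U *ᵥ Pi.single i0 1) with ha
      set b := m ⬝ᵥ (U *ᵥ Pi.single j 1) with hb
      by_cases hab : a = 0
      · have h1 := hm (U *ᵥ Pi.single i0 1)
        rw [hq', ← ha, hab] at h1
        rw [Finset.sum_eq_single i0] at h1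
        · simp at h1; linarith
        · intro b _ hb
          simp [Pi.single_eq_of_ne hb]
        · intro hh; exact absurd (Finset.mem_univ _) hh
      · have h1 := hm (U *ᵥ (b • Pi.single i0 1 - a • Pi.single j 1))
        have e3 : m ⬝ᵥ (U *ᵥ (b • Pi.single i0 1 - a • Pi.single j 1)) = 0 := by
          rw [mulVec_sub, mulVec_smul, mulVec_smul, dotProduct_sub, dotProduct_smul, dotProduct_smul,
            ← ha, ← hb]
          simp only [smul_eq_mul]; ring
        rw [hq', e3] at h1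
        have e4 : ∑ i, lam i * ((b • Pi.single i0 (1:ℝ) - a • Pi.single j (1:ℝ) : V → ℝ) i) ^ 2
            = lam i0 * b ^ 2 + lam j * a ^ 2 := by
          rw [← Finset.add_sum_erase _ _ (Finset.mem_univ i0),
            ← Finset.add_sum_erase _ _ (Finset.mem_erase.2 ⟨hne, Finset.mem_univ j⟩)]
          rw [Finset.sum_eq_zero]
          · simp [Pi.single_eq_of_ne hne, Pi.single_eq_of_ne (Ne.symm hne)]
          · intro i hi
            have h1 : i ≠ j := (Finset.mem_erase.1 hi).1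
            have h2 : i ≠ i0 := (Finset.mem_erase.1 (Finset.mem_erase.1 hi).2).1
            simp [Pi.single_eq_of_ne h1, Pi.single_eq_of_ne h2]
        rw [e4] at h1
        have h5 : lam j * a ^ 2 < 0 := mul_neg_of_neg_of_pos hj (by positivity)
        have h6 : lam i0 * b ^ 2 ≤ 0 := mul_nonpos_of_nonpos_of_nonneg hi0.le (sq_nonneg _)
        simp at h1
        linarith
    · rintro rfl; exact hi0



/-- `q` has at most one negative direction. -/
def Almost (M : Matrix V V ℝ) : Prop :=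
  ∃ m : V → ℝ, ∀ x : V → ℝ, 0 ≤ x ⬝ᵥ (M *ᵥ x) + (m ⬝ᵥ x) ^ 2

theorem symB {M : Matrix V V ℝ} (hs : M.IsSymm) (x y : V → ℝ) :
    x ⬝ᵥ (M *ᵥ y) = y ⬝ᵥ (M *ᵥ x) := by
  rw [dotProduct_mulVec, ← mulVec_transpose, hs.eq, dotProduct_comm]

theorem q_comb {M : Matrix V V ℝ} (hs : M.IsSymm) (x y : V → ℝ) (a b : ℝ) :
    (a • x + b • y) ⬝ᵥ (M *ᵥ (a • x + b • y)) =
      a ^ 2 * (x ⬝ᵥ (M *ᵥ x)) + 2 * a * b * (x ⬝ᵥ (M *ᵥ y)) + b ^ 2 * (y ⬝ᵥ (M *ᵥ y)) := by
  have := symB hs y x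
  simp only [mulVec_add, mulVec_smul, dotProduct_add, add_dotProduct, dotProduct_smul,
    smul_dotProduct, smul_eq_mul]
  rw [this]; ring

/-- If `N` is the PSD form `q + (m·)²` and `N(w) = 0` then `Mw + (m·w)m = 0`. -/
theorem null_of_zero {M : Matrix V V ℝ} (hs : M.IsSymm) {m : V → ℝ}
    (hm : ∀ x : V → ℝ, 0 ≤ x ⬝ᵥ (M *ᵥ x) + (m ⬝ᵥ x) ^ 2) {w : V → ℝ}
    (hw : w ⬝ᵥ (M *ᵥ w) + (m ⬝ᵥ w) ^ 2 = 0) : M *ᵥ w + (m ⬝ᵥ w) • m = 0 := by
  -- bilinear form at (y, w) vanishes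
  have key : ∀ y : V → ℝ, y ⬝ᵥ (M *ᵥ w) + (m ⬝ᵥ w) * (m ⬝ᵥ y) = 0 := by
    intro y
    set A := y ⬝ᵥ (M *ᵥ y) + (m ⬝ᵥ y) ^ 2 with hA
    set B := y ⬝ᵥ (M *ᵥ w) + (m ⬝ᵥ w) * (m ⬝ᵥ y) with hB
    have hpos : ∀ t : ℝ, 0 ≤ t ^ 2 * A + 2 * t * B := by
      intro t
      have h1 := hm (t • y + (1:ℝ) • w)
      rw [q_comb hs, dotProduct_add, dotProduct_smul, dotProduct_smul] at h1
      simp only [smul_eq_mul] at h1
      have : t ^ 2 * A + 2 * t * B = t ^ 2 * A + 2 * t * B + (w ⬝ᵥ (M *ᵥ w) + (m ⬝ᵥ w) ^ 2) := by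
        rw [hw, add_zero]
      rw [this, hA, hB]
      nlinarith [h1]
    have hA0 : 0 ≤ A := hm y
    by_contra hne
    have h2 := hpos (-B / (A + 1))
    have hA1 : 0 < A + 1 := by linarith
    have h3 : (-B / (A + 1)) ^ 2 * A + 2 * (-B / (A + 1)) * B = - (B ^ 2 * (A + 2)) / (A + 1) ^ 2 := by
      field_simp; ring
    rw [h3] at h2
    have h4 : 0 < B ^ 2 * (A + 2) := by
      have : 0 < B ^ 2 := by positivity
      positivity
    have h5 : - (B ^ 2 * (A + 2)) / (A + 1) ^ 2 < 0 := by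
      apply div_neg_of_neg_of_pos
      · linarith
      · positivity
    linarith
  rw [← dotProduct_self_eq_zero]
  have := key (M *ᵥ w + (m ⬝ᵥ w) • m)
  rw [dotProduct_add, dotProduct_smul, smul_eq_mul, dotProduct_comm _ m]
  exact this

/-- Lemma A. -/
theorem lemA {M : Matrix V V ℝ} (hs : M.IsSymm) (hal : Almost M) {u v : V → ℝ}
    (hu : u ⬝ᵥ (M *ᵥ u) ≤ 0) (hMu : M *ᵥ u ≠ 0) (huv : u ⬝ᵥ (M *ᵥ v) = 0) :
    0 ≤ v ⬝ᵥ (M *ᵥ v) := by
  obtain ⟨m, hm⟩ := hal
  have hmu : m ⬝ᵥ u ≠ 0 := by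
    intro h0
    have h1 := hm u
    rw [h0] at h1
    have h2 : u ⬝ᵥ (M *ᵥ u) + (m ⬝ᵥ u) ^ 2 = 0 := by rw [h0]; linarith
    have h3 := null_of_zero hs hm h2
    rw [h0, zero_smul, add_zero] at h3
    exact hMu h3
  have h1 := hm ((m ⬝ᵥ v) • u + (-(m ⬝ᵥ u)) • v)
  rw [q_comb hs, huv, dotProduct_add, dotProduct_smul, dotProduct_smul] at h1
  simp only [smul_eq_mul] at h1
  have h2 : 0 ≤ (m ⬝ᵥ v) ^ 2 * (u ⬝ᵥ (M *ᵥ u)) + (m ⬝ᵥ u) ^ 2 * (v ⬝ᵥ (M *ᵥ v)) := by
    nlinarith [h1]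
  have h3 : (m ⬝ᵥ v) ^ 2 * (u ⬝ᵥ (M *ᵥ u)) ≤ 0 :=
    mul_nonpos_of_nonneg_of_nonpos (sq_nonneg _) hu
  have h4 : 0 ≤ (m ⬝ᵥ u) ^ 2 * (v ⬝ᵥ (M *ᵥ v)) := by linarith
  have h5 : 0 < (m ⬝ᵥ u) ^ 2 := by positivity
  exact nonneg_of_mul_nonneg_right h4 h5

/-- Lemma B. -/
theorem lemB {M : Matrix V V ℝ} (hs : M.IsSymm) (hal : Almost M) {u v : V → ℝ}
    (hu : u ⬝ᵥ (M *ᵥ u) ≤ 0) (hMu : M *ᵥ u ≠ 0) (huv : u ⬝ᵥ (M *ᵥ v) = 0)
    (hv : v ⬝ᵥ (M *ᵥ v) = 0) : ∃ c : ℝ, M *ᵥ v = c • (M *ᵥ u) := by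
  obtain ⟨m, hm⟩ := hal
  have hmu : m ⬝ᵥ u ≠ 0 := by
    intro h0
    have h1 := hm u
    rw [h0] at h1
    have h2 : u ⬝ᵥ (M *ᵥ u) + (m ⬝ᵥ u) ^ 2 = 0 := by rw [h0]; linarith
    have h3 := null_of_zero hs hm h2
    rw [h0, zero_smul, add_zero] at h3
    exact hMu h3
  set w := (m ⬝ᵥ v) • u + (-(m ⬝ᵥ u)) • v with hw
  have hmw : m ⬝ᵥ w = 0 := by
    rw [hw, dotProduct_add, dotProduct_smul, dotProduct_smul]
    simp only [smul_eq_mul]; ring
  have h1 := hm w
  have hqw : w ⬝ᵥ (M *ᵥ w) = (m ⬝ᵥ v) ^ 2 * (u ⬝ᵥ (M *ᵥ u)) := by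
    rw [hw, q_comb hs, huv, hv]; ring
  have h3 : (m ⬝ᵥ v) ^ 2 * (u ⬝ᵥ (M *ᵥ u)) ≤ 0 :=
    mul_nonpos_of_nonneg_of_nonpos (sq_nonneg _) hu
  have h4 : w ⬝ᵥ (M *ᵥ w) + (m ⬝ᵥ w) ^ 2 = 0 := by
    rw [hmw, hqw] at h1 ⊢
    linarith
  have h5 := null_of_zero hs hm h4
  rw [hmw, zero_smul, add_zero, hw, mulVec_add, mulVec_smul, mulVec_smul] at h5
  refine ⟨(m ⬝ᵥ v) / (m ⬝ᵥ u), ?_⟩
  have h6 : (m ⬝ᵥ v) • (M *ᵥ u) = (m ⬝ᵥ u) • (M *ᵥ v) := by
    rw [neg_smul] at h5
    exact add_neg_eq_zero.1 h5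
  rw [div_eq_inv_mul, mul_smul, h6, smul_smul, inv_mul_cancel₀ hmu, one_smul]


/-- Candidates for stresses. -/
def Pat (G : SimpleGraph V) : Submodule ℝ (Matrix V V ℝ) where
  carrier := {X | X.IsSymm ∧ ∀ i j, (i = j ∨ G.Adj i j) → X i j = 0}
  add_mem' := by
    rintro X Y ⟨h1, h2⟩ ⟨h3, h4⟩
    exact ⟨h1.add h3, fun i j h => by simp [h2 i j h, h4 i j h]⟩
  zero_mem' := ⟨Matrix.isSymm_zero, fun i j _ => rfl⟩
  smul_mem' := by
    rintro c X ⟨h1, h2⟩
    exact ⟨h1.smul c, fun i j h => by simp [h2 i j h]⟩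

/-- Multiplication by `M` on the candidates. -/
def LM (G : SimpleGraph V) (M : Matrix V V ℝ) : Pat G →ₗ[ℝ] (V → V → ℝ) where
  toFun X := fun i j => (M * (X : Matrix V V ℝ)) i j
  map_add' X Y := by
    funext i j
    simp [Matrix.mul_add]
  map_smul' c X := by
    funext i j
    simp

/-- Multiplication by `M` on the candidates, together with one entry. -/
def LMab (G : SimpleGraph V) (a b : V) (M : Matrix V V ℝ) : Pat G →ₗ[ℝ] (V → V → ℝ) × ℝ where
  toFun X := (fun i j => (M * (X : Matrix V V ℝ)) i j, (X : Matrix V V ℝ) a b)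
  map_add' X Y := by
    ext i j
    · simp [Matrix.mul_add]
    · simp
  map_smul' c X := by
    ext i j
    · simp
    · simp

/-- `X` is a stress of `M`. -/
def IsStress (G : SimpleGraph V) (M X : Matrix V V ℝ) : Prop :=
  X.IsSymm ∧ (∀ i j, (i = j ∨ G.Adj i j) → X i j = 0) ∧ M * X = 0

/-- dimension of the stress space -/
noncomputable def sdim (G : SimpleGraph V) (M : Matrix V V ℝ) : ℕ :=
  Module.finrank ℝ (LinearMap.ker (LM G M))

/-- support of the stress space -/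
def Supp (G : SimpleGraph V) (M : Matrix V V ℝ) (a b : V) : Prop :=
  ∃ X, IsStress G M X ∧ X a b ≠ 0

theorem mem_ker_LM {G : SimpleGraph V} {M : Matrix V V ℝ} (X : Pat G) :
    X ∈ LinearMap.ker (LM G M) ↔ IsStress G M (X : Matrix V V ℝ) := by
  rw [LinearMap.mem_ker]
  constructor
  · intro h
    refine ⟨X.2.1, X.2.2, ?_⟩
    ext i j
    exact congrFun (congrFun h i) j
  · intro h
    funext i j
    exact congrFun (congrFun h.2.2 i) j

theorem sdim_eq_zero_iff {G : SimpleGraph V} {M : Matrix V V ℝ} :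
    sdim G M = 0 ↔ ∀ X, IsStress G M X → X = 0 := by
  unfold sdim
  rw [Submodule.finrank_eq_zero, Submodule.eq_bot_iff]
  constructor
  · intro h X hX
    have := h ⟨X, hX.1, hX.2.1⟩ ((mem_ker_LM _).2 hX)
    exact congrArg Subtype.val this
  · intro h X hX
    exact Subtype.ext (h _ ((mem_ker_LM X).1 hX))

theorem tendsto_mul_entry (X : Matrix V V ℝ) (M : Matrix V V ℝ) (i j : V) :
    Tendsto (fun M' : Matrix V V ℝ => (M' * X) i j) (𝓝 M) (𝓝 ((M * X) i j)) := by
  have hc : Continuous (fun M' : Matrix V V ℝ => (M' * X) i j) := by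
    simp only [Matrix.mul_apply]
    fun_prop
  exact hc.tendsto M

theorem sdim_usc (G : SimpleGraph V) (M : Matrix V V ℝ) :
    ∀ᶠ M' in 𝓝 M, sdim G M' ≤ sdim G M := by
  apply eventually_ker_le (fun M' => LM G M') (LM G M)
  intro X
  apply tendsto_pi_nhds.2; intro i
  apply tendsto_pi_nhds.2; intro j
  exact tendsto_mul_entry (X : Matrix V V ℝ) M i j

theorem supp_usc {G : SimpleGraph V} {M : Matrix V V ℝ} {a b : V} (h : Supp G M a b) :
    ∀ᶠ M' in 𝓝 M, (¬ Supp G M' a b) → sdim G M' < sdim G M := by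
  have h1 : ∀ᶠ M' in 𝓝 M, Module.finrank ℝ (LinearMap.ker (LMab G a b M')) ≤
      Module.finrank ℝ (LinearMap.ker (LMab G a b M)) := by
    apply eventually_ker_le (fun M' => LMab G a b M') (LMab G a b M)
    intro X
    apply Filter.Tendsto.prodMk_nhds
    · apply tendsto_pi_nhds.2; intro i
      apply tendsto_pi_nhds.2; intro j
      exact tendsto_mul_entry (X : Matrix V V ℝ) M i j
    · exact tendsto_const_nhds
  refine h1.mono (fun M' hM' hno => ?_)
  have h2 : LinearMap.ker (LM G M') ≤ LinearMap.ker (LMab G a b M') := by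
    intro X hX
    have hst := (mem_ker_LM X).1 hX
    rw [LinearMap.mem_ker]
    have hz : (X : Matrix V V ℝ) a b = 0 := by
      by_contra hne
      exact hno ⟨_, hst, hne⟩
    have h3 : (LM G M') X = 0 := hX
    exact Prod.ext h3 hz
  have h3 : LinearMap.ker (LMab G a b M) < LinearMap.ker (LM G M) := by
    rw [lt_iff_le_and_ne]
    constructor
    · intro X hX
      rw [LinearMap.mem_ker] at hX ⊢
      exact congrArg Prod.fst hX
    · intro heq
      obtain ⟨X, hX, hne⟩ := h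
      have h4 : (⟨X, hX.1, hX.2.1⟩ : Pat G) ∈ LinearMap.ker (LM G M) := (mem_ker_LM _).2 hX
      rw [← heq, LinearMap.mem_ker] at h4
      exact hne (congrArg Prod.snd h4)
  have h4 := Submodule.finrank_lt_finrank_of_lt h3
  have h5 := Submodule.finrank_mono h2
  unfold sdim
  omega



/-- `V_S`: vectors `y` with `(My)_j = 0` for all `j ∈ S`. -/
def VS (M : Matrix V V ℝ) (S : Finset V) : Submodule ℝ (V → ℝ) where
  carrier := {y | ∀ j ∈ S, (M *ᵥ y) j = 0}
  add_mem' := by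
    intro x y hx hy j hj
    rw [mulVec_add, Pi.add_apply, hx j hj, hy j hj, add_zero]
  zero_mem' := by intro j _; simp
  smul_mem' := by
    intro c x hx j hj
    rw [mulVec_smul, Pi.smul_apply, hx j hj, smul_zero]

/-- `D_S`: kernel vectors supported on `S`. -/
def DS (M : Matrix V V ℝ) (S : Finset V) : Submodule ℝ (V → ℝ) where
  carrier := {x | (∀ j, j ∉ S → x j = 0) ∧ M *ᵥ x = 0}
  add_mem' := by
    rintro x y ⟨hx, hx'⟩ ⟨hy, hy'⟩
    exact ⟨fun j hj => by simp [hx j hj, hy j hj], by rw [mulVec_add, hx', hy', add_zero]⟩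
  zero_mem' := ⟨fun _ _ => rfl, by simp⟩
  smul_mem' := by
    rintro c x ⟨hx, hx'⟩
    exact ⟨fun j hj => by simp [hx j hj], by rw [mulVec_smul, hx', smul_zero]⟩

theorem finrank_VS {M : Matrix V V ℝ} (hs : M.IsSymm) (S : Finset V) :
    Module.finrank ℝ (VS M S) + S.card = Fintype.card V + Module.finrank ℝ (DS M S) := by
  classical
  set A : Matrix S V ℝ := M.submatrix (fun j : S => (j : V)) id with hA
  have h1 : VS M S = LinearMap.ker A.mulVecLin := by
    ext y
    rw [LinearMap.mem_ker]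
    constructor
    · intro h
      funext j
      exact h j j.2
    · intro h j hj
      exact congrFun h ⟨j, hj⟩
  have h2 : Module.finrank ℝ (VS M S) + A.rank = Fintype.card V := by
    rw [h1]
    have := LinearMap.finrank_range_add_finrank_ker A.mulVecLin
    rw [Module.finrank_fintype_fun_eq_card] at this
    unfold Matrix.rank
    omega
  have h3 : Module.finrank ℝ (LinearMap.ker Aᵀ.mulVecLin) + A.rank = S.card := by
    have := LinearMap.finrank_range_add_finrank_ker Aᵀ.mulVecLin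
    rw [Module.finrank_fintype_fun_eq_card, Fintype.card_coe] at this
    rw [← Matrix.rank_transpose A]
    unfold Matrix.rank
    omega
  have hmul : ∀ x : V → ℝ, (∀ j, j ∉ S → x j = 0) → ∀ i,
      (Aᵀ *ᵥ (fun j : S => x j)) i = (M *ᵥ x) i := by
    intro x hx i
    simp only [mulVec, dotProduct, transpose_apply, hA, submatrix_apply, id]
    rw [Finset.sum_coe_sort S (fun j => M j i * x j)]
    rw [← Finset.sum_subset (Finset.subset_univ S)]
    · apply Finset.sum_congr rfl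
      intro j _
      rw [hs.apply]
    · intro j _ hj
      rw [hx j hj, mul_zero]
  have h4 : Module.finrank ℝ (DS M S) = Module.finrank ℝ (LinearMap.ker Aᵀ.mulVecLin) := by
    apply LinearEquiv.finrank_eq
    exact
      { toFun := fun x => ⟨fun j : S => (x : V → ℝ) j, by
          rw [LinearMap.mem_ker]
          funext i
          have := hmul (x : V → ℝ) x.2.1 i
          rw [mulVecLin_apply, this, x.2.2]⟩
        map_add' := fun x y => rfl
        map_smul' := fun c x => rfl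
        invFun := fun z => ⟨fun j => if hj : j ∈ S then (z : S → ℝ) ⟨j, hj⟩ else 0, by
          refine ⟨fun j hj => by simp [hj], ?_⟩
          have hz : Aᵀ *ᵥ (z : S → ℝ) = 0 := z.2
          funext i
          rw [← hmul _ (fun j hj => by simp [hj]) i]
          have : (fun j : S => (if hj : (j : V) ∈ S then (z : S → ℝ) ⟨j, hj⟩ else 0)) = (z : S → ℝ) := by
            funext j; simp
          rw [this, hz]⟩
        left_inv := fun x => by
          apply Subtype.ext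
          funext j
          by_cases hj : j ∈ S
          · simp [hj]
          · simp [hj, x.2.1 j hj]
        right_inv := fun z => by
          apply Subtype.ext
          funext j
          simp }
  omega

theorem finrank_DS_pos {M : Matrix V V ℝ} {S : Finset V} {x : V → ℝ}
    (hx : ∀ j, j ∉ S → x j = 0) (hM : M *ᵥ x = 0) (h0 : x ≠ 0) :
    1 ≤ Module.finrank ℝ (DS M S) := by
  have : Nontrivial (DS M S) := by
    refine ⟨⟨⟨x, hx, hM⟩, 0, ?_⟩⟩
    intro h
    exact h0 (congrArg Subtype.val h)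
  exact Module.finrank_pos

theorem prop_of_finrank_DS {M : Matrix V V ℝ} {S : Finset V} {x y : V → ℝ}
    (hD : Module.finrank ℝ (DS M S) ≤ 1)
    (hx : ∀ j, j ∉ S → x j = 0) (hM : M *ᵥ x = 0) (h0 : x ≠ 0)
    (hy : ∀ j, j ∉ S → y j = 0) (hMy : M *ᵥ y = 0) : ∃ t : ℝ, y = t • x := by
  have h1 : Module.finrank ℝ (DS M S) = 1 := le_antisymm hD (finrank_DS_pos hx hM h0)
  obtain ⟨t, ht⟩ := exists_smul_eq_of_finrank_eq_one h1 (x := ⟨x, hx, hM⟩)
    (by intro h; exact h0 (congrArg Subtype.val h)) ⟨y, hy, hMy⟩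
  exact ⟨t, (congrArg Subtype.val ht).symm⟩

/-- corank -/
noncomputable def corank (M : Matrix V V ℝ) : ℕ :=
  Module.finrank ℝ (LinearMap.ker (Matrix.toLin' M))

/-- If `V₁ ⊥_M V₂` then `dim V₁ + dim V₂ ≤ n + corank M`. -/
theorem finrank_perp {M : Matrix V V ℝ} (hs : M.IsSymm) (P Q : Submodule ℝ (V → ℝ))
    (h : ∀ x ∈ P, ∀ y ∈ Q, x ⬝ᵥ (M *ᵥ y) = 0) :
    Module.finrank ℝ P + Module.finrank ℝ Q ≤ Fintype.card V + corank M := by
  classical
  -- B x y = x ⬝ᵥ M y
  set B : LinearMap.BilinForm ℝ (V → ℝ) := Matrix.toBilin' M with hB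
  have hBapp : ∀ x y, B x y = x ⬝ᵥ (M *ᵥ y) := fun x y => Matrix.toBilin'_apply' M x y
  have hrefl : B.IsRefl := by
    intro x y hxy
    rw [hBapp] at hxy ⊢
    rw [symB hs]; exact hxy
  have h1 := LinearMap.BilinForm.finrank_add_finrank_orthogonal hrefl P
  rw [Module.finrank_fintype_fun_eq_card] at h1
  have h2 : Q ≤ B.orthogonal P := by
    intro y hy
    rw [LinearMap.BilinForm.mem_orthogonal_iff]
    intro x hx
    show B x y = 0
    rw [hBapp]
    exact h x hx y hy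
  have h3 : P ⊓ B.orthogonal ⊤ ≤ LinearMap.ker (Matrix.toLin' M) := by
    rintro y ⟨-, hy⟩
    have hy' : y ∈ B.orthogonal ⊤ := hy
    rw [LinearMap.BilinForm.mem_orthogonal_iff] at hy'
    rw [LinearMap.mem_ker, Matrix.toLin'_apply]
    have := hy' (M *ᵥ y) trivial
    have h4 : B (M *ᵥ y) y = 0 := this
    rw [hBapp] at h4
    exact dotProduct_self_eq_zero.1 h4
  have h4 := Submodule.finrank_mono h2
  have h5 := Submodule.finrank_mono h3
  unfold corank
  omega


end Pool.Agent.CdV
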