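import Pool.Agent.CdV.Base

/-!
# A `6`-connected graph with `μ ≤ 6` and a discrete Schrödinger operator of corank `7`
(MP_765e2d_co)

The graph `G` has vertex set `{(i, s) : i ∈ ℤ/6, s ∈ {+, -}}` (vertex `(i, +)` is `2 i`, vertex
`(i, -)` is `2 i + 1`).  Its complement `H` consists of all pairs `(i, s), (i ± 1, t)` together
with the four pairs `0+ 2+`, `2- 4-`, `1+ 3+`, `3- 5-`.

* `G` is `6`-connected: a complete bipartite subgraph of `H` has at most `6` vertices.
* The Gram matrix of `gᵢ ± τ e` (`i` even), `gᵢ ± τ e'` (`i` odd), where `g₀, …, g₅` are the side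
  normals of the regular right-angled hexagon of the hyperbolic plane, lies in `𝓜(G)` and has
  corank `7`.
* If `M ∈ 𝓜(G)` has corank at least `7`, then the column space of `M` has dimension at most `5`;
  the spans `Cᵢ` of the two columns of class `i` are planes, `C₀, C₂, C₄` share a common vector, and
  so do `C₁, C₃, C₅`.  These two vectors give a nonzero `X` with `M X = 0` supported on `H`, so `M`
  does not have the Strong Arnold Property.  Hence `μ(G) ≤ 6`.
-/

set_option autoImplicit false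
set_option linter.unusedSectionVars false

namespace Pool.Agent.CdV.Counter

open Matrix Finset

/-- Gram table of the twelve vectors. -/
def Nm : Matrix (Fin 12) (Fin 12) ℤ :=
  !![3, -2, 0, 0, 0, -4, -3, -3, -2, -4, 0, 0;
    -2, 34, 0, 0, -14, -2, -12, -12, -50, -2, 0, 0;
    0, 0, 3, -2, 0, 0, 0, -4, -12, -3, -2, -4;
    0, 0, -2, 34, 0, 0, -14, -2, -48, -12, -50, -2;
    0, -14, 0, 0, 3, -1, 0, 0, -2, -4, -12, -3;
    -4, -2, 0, 0, -1, 3, 0, 0, -14, 0, -12, -3;
    -3, -12, 0, -14, 0, 0, 3, -1, 0, 0, -2, -4;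
    -3, -12, -4, -2, 0, 0, -1, 3, 0, 0, -14, 0;
    -2, -50, -12, -48, -2, -14, 0, 0, 34, -2, 0, 0;
    -4, -2, -3, -12, -4, 0, 0, 0, -2, 3, 0, 0;
    0, 0, -2, -50, -12, -12, -2, -14, 0, 0, 34, -2;
    0, 0, -4, -2, -3, -3, -4, 0, 0, 0, -2, 3]

/-- Coordinates of the twelve vectors in the basis `g₀, g₁, g₂, e, e'`. -/
def Bm : Matrix (Fin 12) (Fin 5) ℤ :=
  !![1, 0, 0, 1, 0; 4, 0, 0, -3, 0; 0, 1, 0, 0, 1; 0, 4, 0, 0, -3; 0, 0, 1, 1, 0; 0, 0, 1, -1, 0;
    1, -2, 2, 0, 1; 1, -2, 2, 0, -1; 8, -12, 8, 3, 0; 2, -3, 2, -1, 0; 8, -8, 4, 0, 3;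
    2, -2, 1, 0, -1]

/-- Gram matrix of the basis. -/
def Qm : Matrix (Fin 5) (Fin 5) ℤ :=
  !![1, 0, -2, 0, 0; 0, 1, 0, 0, 0; -2, 0, 1, 0, 0; 0, 0, 0, 2, 0; 0, 0, 0, 0, 2]

theorem Nm_eq : Nm = Bm * (Qm * Bmᵀ) := by
  decide +kernel

/-- Adjacency masks. -/
def mask : Fin 12 → ℕ :=
  ![994, 1009, 3976, 4036, 3874, 3347, 3211, 1103, 575, 287, 2300, 1148]

/-- The graph: the complement of `C₆[2K₁]` with four extra edges removed. -/
def G : SimpleGraph (Fin 12) where
  Adj a b := (mask a).testBit b.val = true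
  symm := ⟨by decide⟩
  loopless := ⟨by decide⟩

instance : DecidableRel G.Adj := fun a b => inferInstanceAs (Decidable ((mask a).testBit b.val = true))

theorem Nm_neg : ∀ a b, G.Adj a b → Nm a b < 0 := by decide
theorem Nm_zero : ∀ a b, a ≠ b → ¬ G.Adj a b → Nm a b = 0 := by decide
theorem Nm_symm : ∀ a b, Nm a b = Nm b a := by decide


/-! ### Connectivity -/

/-- non-neighbours -/
def nn (a : Fin 12) : Finset (Fin 12) := Finset.univ.filter (fun b => b ≠ a ∧ ¬ G.Adj a b)

theorem nn1 : ∀ a, (nn a).card ≤ 5 := by decide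
theorem nn2 : ∀ a b, a ≠ b → (nn a ∩ nn b).card ≤ 4 := by decide +kernel
theorem nn3 : ∀ a b c, a ≠ b → a ≠ c → b ≠ c → (nn a ∩ nn b ∩ nn c).card ≤ 3 := by
  decide +kernel

theorem no_big {A B : Finset (Fin 12)} (h : ∀ a ∈ A, ∀ b ∈ B, b ≠ a ∧ ¬ G.Adj a b)
    (hA : A.Nonempty) (hB : B.Nonempty) : A.card + B.card ≤ 6 := by
  have key : ∀ A B : Finset (Fin 12), (∀ a ∈ A, ∀ b ∈ B, b ≠ a ∧ ¬ G.Adj a b) →
      (1 ≤ A.card → B.card ≤ 5) ∧ (2 ≤ A.card → B.card ≤ 4) ∧ (3 ≤ A.card → B.card ≤ 3) := by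
    intro A B h
    refine ⟨fun h1 => ?_, fun h2 => ?_, fun h3 => ?_⟩
    · obtain ⟨a, ha⟩ := Finset.card_pos.1 h1
      have hs : B ⊆ nn a := by
        intro b hb
        simp only [nn, Finset.mem_filter, Finset.mem_univ, true_and]
        exact h a ha b hb
      exact (Finset.card_le_card hs).trans (nn1 a)
    · obtain ⟨a, ha, b, hb, hab⟩ := Finset.one_lt_card.1 h2
      have hs : B ⊆ nn a ∩ nn b := by
        intro x hx
        simp only [nn, Finset.mem_inter, Finset.mem_filter, Finset.mem_univ, true_and]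
        exact ⟨h a ha x hx, h b hb x hx⟩
      exact (Finset.card_le_card hs).trans (nn2 a b hab)
    · obtain ⟨a, b, c, ha, hb, hc, hab, hac, hbc⟩ := Finset.two_lt_card_iff.1 h3
      have hs : B ⊆ nn a ∩ nn b ∩ nn c := by
        intro x hx
        simp only [nn, Finset.mem_inter, Finset.mem_filter, Finset.mem_univ, true_and]
        exact ⟨⟨h a ha x hx, h b hb x hx⟩, h c hc x hx⟩
      exact (Finset.card_le_card hs).trans (nn3 a b c hab hac hbc)
  have h1 := key A B h
  have h2 := key B A (fun b hb a ha => ⟨(h a ha b hb).1.symm, fun hh => (h a ha b hb).2 hh.symm⟩)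
  have h3 : 1 ≤ A.card := Finset.card_pos.2 hA
  have h4 : 1 ≤ B.card := Finset.card_pos.2 hB
  omega

theorem connected {S : Finset (Fin 12)} (hS : S.card ≤ 5) :
    (G.induce ((S : Set (Fin 12))ᶜ)).Connected := by
  classical
  have hne : ∃ v, v ∉ S := by
    by_contra hno
    push Not at hno
    have : (Finset.univ : Finset (Fin 12)) ⊆ S := fun v _ => hno v
    have := Finset.card_le_card this
    simp at this
    omega
  obtain ⟨v0, hv0⟩ := hne
  set R := G.induce ((S : Set (Fin 12))ᶜ) with hR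
  have hv0' : v0 ∈ ((S : Set (Fin 12))ᶜ) := by simpa using hv0
  have hreach : ∀ w : ((S : Set (Fin 12))ᶜ : Set (Fin 12)), R.Reachable ⟨v0, hv0'⟩ w := by
    by_contra hno
    push Not at hno
    obtain ⟨w0, hw0⟩ := hno
    -- reachable and unreachable parts
    let A : Finset (Fin 12) := Finset.univ.filter (fun v => ∃ hv : v ∈ ((S : Set (Fin 12))ᶜ),
      R.Reachable ⟨v0, hv0'⟩ ⟨v, hv⟩)
    let B : Finset (Fin 12) := Finset.univ.filter (fun v => ∃ hv : v ∈ ((S : Set (Fin 12))ᶜ),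
      ¬ R.Reachable ⟨v0, hv0'⟩ ⟨v, hv⟩)
    have hA : A.Nonempty := ⟨v0, by
      simp only [A, Finset.mem_filter, Finset.mem_univ, true_and]
      exact ⟨hv0', SimpleGraph.Reachable.refl _⟩⟩
    have hB : B.Nonempty := ⟨w0, by
      simp only [B, Finset.mem_filter, Finset.mem_univ, true_and]
      exact ⟨w0.2, hw0⟩⟩
    have hAB : ∀ a ∈ A, ∀ b ∈ B, b ≠ a ∧ ¬ G.Adj a b := by
      intro a ha b hb
      simp only [A, B, Finset.mem_filter, Finset.mem_univ, true_and] at ha hb
      obtain ⟨ha1, ha2⟩ := ha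
      obtain ⟨hb1, hb2⟩ := hb
      constructor
      · rintro rfl
        exact hb2 ha2
      · intro hadj
        apply hb2
        apply ha2.trans
        apply SimpleGraph.Adj.reachable
        exact hadj
    have h1 := no_big hAB hA hB
    have h2 : (Finset.univ : Finset (Fin 12)) ⊆ A ∪ B ∪ S := by
      intro v _
      by_cases hv : v ∈ S
      · exact Finset.mem_union_right _ hv
      · apply Finset.mem_union_left
        have hv' : v ∈ ((S : Set (Fin 12))ᶜ) := by simpa using hv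
        by_cases hr : R.Reachable ⟨v0, hv0'⟩ ⟨v, hv'⟩
        · apply Finset.mem_union_left
          simp only [A, Finset.mem_filter, Finset.mem_univ, true_and]
          exact ⟨hv', hr⟩
        · apply Finset.mem_union_right
          simp only [B, Finset.mem_filter, Finset.mem_univ, true_and]
          exact ⟨hv', hr⟩
    have h3 := Finset.card_le_card h2
    have h4 := Finset.card_union_le (A ∪ B) S
    have h5 := Finset.card_union_le A B
    simp only [Finset.card_univ, Fintype.card_fin] at h3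
    omega
  have : Nonempty ((S : Set (Fin 12))ᶜ : Set (Fin 12)) := ⟨⟨v0, hv0'⟩⟩
  refine SimpleGraph.Connected.mk (fun a b => ?_)
  exact (hreach a).symm.trans (hreach b)


/-! ### The matrix of corank seven -/

/-- The matrix over the reals. -/
noncomputable def M0 : Matrix (Fin 12) (Fin 12) ℝ := Nm.map (Int.cast : ℤ → ℝ)

theorem M0_eq : M0 = (Bm.map (Int.cast : ℤ → ℝ)) *
    ((Qm.map (Int.cast : ℤ → ℝ)) * (Bm.map (Int.cast : ℤ → ℝ))ᵀ) := by
  have h1 := congrArg (fun A : Matrix (Fin 12) (Fin 12) ℤ => A.map (Int.castRingHom ℝ)) Nm_eq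
  simp only [Matrix.map_mul] at h1
  exact h1

theorem M0_symm : M0.IsSymm := by
  apply Matrix.IsSymm.ext
  intro i j
  simp only [M0, Matrix.map_apply]
  rw [Nm_symm]

theorem M0_herm : M0.IsHermitian := by
  have := M0_symm
  unfold Matrix.IsHermitian
  rw [Matrix.conjTranspose_eq_transpose_of_trivial]
  exact this

theorem M0_neg : ∀ i j, G.Adj i j → M0 i j < 0 := by
  intro i j h
  simp only [M0, Matrix.map_apply]
  exact_mod_cast Nm_neg i j h

theorem M0_zero : ∀ i j, i ≠ j → ¬ G.Adj i j → M0 i j = 0 := by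
  intro i j h1 h2
  simp only [M0, Matrix.map_apply]
  exact_mod_cast Nm_zero i j h1 h2

theorem M0_corank : 7 ≤ Module.finrank ℝ (LinearMap.ker (Matrix.toLin' M0)) := by
  have h1 : M0.rank ≤ 5 := by
    rw [M0_eq]
    refine (Matrix.rank_mul_le_left _ _).trans ?_
    have := Matrix.rank_le_width (Bm.map (Int.cast : ℤ → ℝ))
    simpa using this
  have h2 := LinearMap.finrank_range_add_finrank_ker (Matrix.toLin' M0)
  rw [Module.finrank_fintype_fun_eq_card, Fintype.card_fin] at h2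
  unfold Matrix.rank at h1
  rw [Matrix.toLin'_apply'] at h2 ⊢
  omega

theorem M0_inertia : ∀ h : M0.IsHermitian,
    (Finset.univ.filter (fun i => h.eigenvalues i < 0)).card = 1 := by
  intro h
  rw [inertia_iff]
  constructor
  · refine ⟨(Bm.map (Int.cast : ℤ → ℝ)) *ᵥ ![1, 0, 1, 0, 0], fun x => ?_⟩
    set u : Fin 5 → ℝ := (Bm.map (Int.cast : ℤ → ℝ))ᵀ *ᵥ x with hu
    have e1 : x ⬝ᵥ (M0 *ᵥ x) = u ⬝ᵥ ((Qm.map (Int.cast : ℤ → ℝ)) *ᵥ u) := by
      rw [M0_eq, ← mulVec_mulVec, ← mulVec_mulVec, ← hu, dotProduct_mulVec, ← mulVec_transpose]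
    have e2 : ((Bm.map (Int.cast : ℤ → ℝ)) *ᵥ ![1, 0, 1, 0, 0]) ⬝ᵥ x =
        (![1, 0, 1, 0, 0] : Fin 5 → ℝ) ⬝ᵥ u := by
      rw [hu, dotProduct_mulVec, vecMul_transpose]
    rw [e1, e2]
    have e3 : u ⬝ᵥ ((Qm.map (Int.cast : ℤ → ℝ)) *ᵥ u) =
        u 0 ^ 2 + u 1 ^ 2 + u 2 ^ 2 - 4 * u 0 * u 2 + 2 * u 3 ^ 2 + 2 * u 4 ^ 2 := by
      simp [dotProduct, mulVec, Fin.sum_univ_succ, Qm]
      ring
    have e4 : (![1, 0, 1, 0, 0] : Fin 5 → ℝ) ⬝ᵥ u = u 0 + u 2 := by
      simp [dotProduct, Fin.sum_univ_succ]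
    rw [e3, e4]
    nlinarith [sq_nonneg (u 0), sq_nonneg (u 1), sq_nonneg (u 2), sq_nonneg (u 3),
      sq_nonneg (u 4), sq_nonneg (u 0 - u 2)]
  · refine ⟨Pi.single 0 1 + Pi.single 5 1, ?_⟩
    rw [mulVec_add, dotProduct_add, add_dotProduct, add_dotProduct]
    simp only [mulVec_single_one, single_dotProduct, one_mul]
    simp only [M0, Matrix.col_apply, Matrix.map_apply]
    have h1 : Nm 0 0 = 3 := by decide
    have h2 : Nm 0 5 = -4 := by decide
    have h3 : Nm 5 0 = -4 := by decide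
    have h4 : Nm 5 5 = 3 := by decide
    rw [h1, h2, h3, h4]
    norm_num


/-! ### Every matrix of corank seven has a stress -/

section Stress

variable {M : Matrix (Fin 12) (Fin 12) ℝ}

/-- `ξ` is supported on `{p, q}`. -/
def On (ξ : Fin 12 → ℝ) (p q : Fin 12) : Prop := ∀ j, j ≠ p → j ≠ q → ξ j = 0

theorem mulVec_on {ξ : Fin 12 → ℝ} {p q : Fin 12} (h : On ξ p q) (hpq : p ≠ q) (i : Fin 12) :
    (M *ᵥ ξ) i = M i p * ξ p + M i q * ξ q := by
  show ∑ j, M i j * ξ j = _
  rw [← Finset.sum_subset (Finset.subset_univ {p, q})]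
  · rw [Finset.sum_pair hpq]
  · intro j _ hj
    simp only [Finset.mem_insert, Finset.mem_singleton, not_or] at hj
    rw [h j hj.1 hj.2, mul_zero]

/-- independence of the two columns of a class -/
theorem indep (hs : M.IsSymm) {p q d f : Fin 12} (hpq : p ≠ q) (h1 : M p d = 0) (h2 : M q d ≠ 0)
    (h3 : M p f ≠ 0) {ξ : Fin 12 → ℝ} (hξ : On ξ p q) (hM : M *ᵥ ξ = 0) : ξ = 0 := by
  have e1 := congrFun hM d
  rw [mulVec_on hξ hpq, hs.apply p d, hs.apply q d, h1, zero_mul, zero_add, Pi.zero_apply] at e1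
  have hq : ξ q = 0 := by
    rcases mul_eq_zero.1 e1 with h | h
    · exact absurd h h2
    · exact h
  have e2 := congrFun hM f
  rw [mulVec_on hξ hpq, hs.apply p f, hq, mul_zero, add_zero, Pi.zero_apply] at e2
  have hp : ξ p = 0 := by
    rcases mul_eq_zero.1 e2 with h | h
    · exact absurd h h3
    · exact h
  funext j
  by_cases hj : j = p
  · rw [hj, hp]; rfl
  · by_cases hj' : j = q
    · rw [hj', hq]; rfl
    · exact hξ j hj hj'

/-- A kernel vector on any six vertices. -/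
theorem exists_six (hs : M.IsSymm) (hc : 7 ≤ corank M) (T : Finset (Fin 12)) (hT : T.card = 6) :
    ∃ x : Fin 12 → ℝ, x ≠ 0 ∧ (∀ j, j ∉ T → x j = 0) ∧ M *ᵥ x = 0 := by
  have h1 := finrank_VS hs T
  have h2 : LinearMap.ker (Matrix.toLin' M) ≤ VS M T := by
    intro y hy j _
    rw [LinearMap.mem_ker, Matrix.toLin'_apply] at hy
    rw [hy]; rfl
  have h3 := Submodule.finrank_mono h2
  unfold corank at hc
  rw [Fintype.card_fin, hT] at h1
  have h4 : 0 < Module.finrank ℝ (DS M T) := by omega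
  obtain ⟨⟨x, hx⟩, hne⟩ := (Module.finrank_pos_iff_exists_ne_zero (R := ℝ)).1 h4
  exact ⟨x, fun h => hne (Subtype.ext h), hx.1, hx.2⟩

/-- restriction to a pair -/
def res (x : Fin 12 → ℝ) (p q : Fin 12) : Fin 12 → ℝ := fun j => if j = p ∨ j = q then x j else 0

theorem res_on (x : Fin 12 → ℝ) (p q : Fin 12) : On (res x p q) p q := by
  intro j h1 h2
  simp [res, h1, h2]

/-- The relation between two classes separated by the class `{p, p'}`. -/
theorem pairdep (hs : M.IsSymm) (hc : 7 ≤ corank M) {p p' d f a a' b b' : Fin 12}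
    (hdist : [a, a', b, b', d, f].Nodup)
    (hpd : M p d = 0) (hp'd : M p' d ≠ 0) (hpf : M p f ≠ 0)
    (hz : M p a = 0 ∧ M p a' = 0 ∧ M p b = 0 ∧ M p b' = 0)
    (hz' : M p' a = 0 ∧ M p' a' = 0 ∧ M p' b = 0 ∧ M p' b' = 0)
    (hA : ∀ ξ, On ξ a a' → M *ᵥ ξ = 0 → ξ = 0) (hB : ∀ ξ, On ξ b b' → M *ᵥ ξ = 0 → ξ = 0) :
    ∃ ξ η : Fin 12 → ℝ, On ξ a a' ∧ On η b b' ∧ ξ ≠ 0 ∧ η ≠ 0 ∧ M *ᵥ ξ = M *ᵥ η := by
  have hcard : ({a, a', b, b', d, f} : Finset (Fin 12)).card = 6 := by
    have h1 := List.toFinset_card_of_nodup hdist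
    have h2 : ([a, a', b, b', d, f] : List (Fin 12)).toFinset = {a, a', b, b', d, f} := by
      ext j; simp
    rw [h2] at h1
    exact h1
  obtain ⟨x, hx0, hxT, hMx⟩ := exists_six hs hc _ hcard
  simp only [List.nodup_cons, List.mem_cons, List.not_mem_nil, or_false, not_or,
    List.nodup_nil, and_true, not_false_eq_true] at hdist
  obtain ⟨⟨haa', hab, hab', had, haf⟩, ⟨ha'b, ha'b', ha'd, ha'f⟩, ⟨hbb', hbd, hbf⟩, ⟨hb'd, hb'f⟩,
    hdf⟩ := hdist
  have hsum : ∀ i, (M *ᵥ x) i = M i a * x a + M i a' * x a' + M i b * x b + M i b' * x b' +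
      M i d * x d + M i f * x f := by
    intro i
    show ∑ j, M i j * x j = _
    rw [← Finset.sum_subset (Finset.subset_univ {a, a', b, b', d, f})]
    · rw [Finset.sum_insert (by simp [*]), Finset.sum_insert (by simp [*]),
        Finset.sum_insert (by simp [*]), Finset.sum_insert (by simp [*]),
        Finset.sum_pair hdf]
      ring
    · intro j _ hj
      rw [hxT j hj, mul_zero]
  have e1 := hsum p
  rw [hMx, hz.1, hz.2.1, hz.2.2.1, hz.2.2.2, hpd] at e1
  simp only [Pi.zero_apply, zero_mul, add_zero, zero_add] at e1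
  have hxf : x f = 0 := by
    rcases mul_eq_zero.1 e1.symm with h | h
    · exact absurd h hpf
    · exact h
  have e2 := hsum p'
  rw [hMx, hz'.1, hz'.2.1, hz'.2.2.1, hz'.2.2.2, hxf] at e2
  simp only [Pi.zero_apply, zero_mul, add_zero, zero_add, mul_zero] at e2
  have hxd : x d = 0 := by
    rcases mul_eq_zero.1 e2.symm with h | h
    · exact absurd h hp'd
    · exact h
  -- the two halves
  have hsplit : x = res x a a' + res x b b' := by
    funext j
    simp only [Pi.add_apply, res]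
    by_cases h1 : j = a
    · subst h1; simp [hab, hab']
    · by_cases h2 : j = a'
      · subst h2; simp [ha'b, ha'b']
      · by_cases h3 : j = b
        · subst h3; simp [h1, h2]
        · by_cases h4 : j = b'
          · subst h4; simp [h1, h2]
          · simp only [h1, h2, h3, h4, or_self, if_false, add_zero]
            by_cases h5 : j = d
            · rw [h5]; exact hxd
            · by_cases h6 : j = f
              · rw [h6]; exact hxf
              · exact hxT j (by simp [h1, h2, h3, h4, h5, h6])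
  have hrel : M *ᵥ res x a a' = M *ᵥ (-res x b b') := by
    have h1 : M *ᵥ (res x a a' + res x b b') = 0 := by rw [← hsplit]; exact hMx
    rw [mulVec_add] at h1
    rw [mulVec_neg]
    exact eq_neg_of_add_eq_zero_left h1
  have hneg : On (-res x b b') b b' := by
    intro j h1 h2
    rw [Pi.neg_apply, res_on x b b' j h1 h2, neg_zero]
  refine ⟨res x a a', -res x b b', res_on x a a', hneg, ?_, ?_, hrel⟩
  · intro h0
    have h1 : -res x b b' = 0 := hB _ hneg (by rw [← hrel, h0, mulVec_zero])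
    apply hx0
    rw [hsplit, h0, neg_eq_zero.1 h1, add_zero]
  · intro h0
    have h1 : res x a a' = 0 := hA _ (res_on x a a') (by rw [hrel, h0, mulVec_zero])
    apply hx0
    rw [hsplit, h1, neg_eq_zero.1 h0, add_zero]

/-- Concurrency: the three classes of one parity share a column-space vector. -/
theorem concur {a a' b b' c c' t : Fin 12} (haa : a ≠ a') (hbb : b ≠ b') (hcc : c ≠ c')
    (hta : M t a = 0 ∧ M t a' = 0) (htb : M t b = 0 ∧ M t b' = 0) (htc : M t c ≠ 0)
    {ξb ηc : Fin 12 → ℝ} (h1 : On ξb b b') (h2 : On ηc c c') (h2' : ηc ≠ 0)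
    (h3 : M *ᵥ ξb = M *ᵥ ηc)
    {ξa θc : Fin 12 → ℝ} (h4 : On ξa a a') (h5 : On θc c c') (h5' : θc ≠ 0)
    (h6 : M *ᵥ ξa = M *ᵥ θc) :
    ∃ l : ℝ, l ≠ 0 ∧ M *ᵥ (l • ξa) = M *ᵥ ηc := by
  -- determinant
  have hdet : ηc c * θc c' - ηc c' * θc c = 0 := by
    set w : Fin 12 → ℝ := θc c' • ηc - ηc c' • θc with hw
    have hwon : On w c c' := by
      intro j hj hj'
      simp only [hw, Pi.sub_apply, Pi.smul_apply, smul_eq_mul]
      rw [h2 j hj hj', h5 j hj hj']; ring
    have e1 : M *ᵥ w = θc c' • (M *ᵥ ξb) - ηc c' • (M *ᵥ ξa) := by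
      rw [hw, mulVec_sub, mulVec_smul, mulVec_smul, h3, h6]
    have e2 := congrFun e1 t
    rw [mulVec_on hwon hcc, Pi.sub_apply, Pi.smul_apply, Pi.smul_apply, mulVec_on h1 hbb,
      mulVec_on h4 haa, htb.1, htb.2, hta.1, hta.2] at e2
    have e3 : w c' = 0 := by
      simp only [hw, Pi.sub_apply, Pi.smul_apply, smul_eq_mul]; ring
    rw [e3] at e2
    simp only [zero_mul, add_zero, smul_zero, sub_self, mul_zero] at e2
    have e4 : w c = 0 := by
      rcases mul_eq_zero.1 e2 with h | h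
      · exact absurd h htc
      · exact h
    simp only [hw, Pi.sub_apply, Pi.smul_apply, smul_eq_mul] at e4
    linarith
  -- proportionality
  have hprop : ∃ l : ℝ, l ≠ 0 ∧ l • θc = ηc := by
    by_cases hc : θc c = 0
    · have hc' : θc c' ≠ 0 := by
        intro h0
        apply h5'
        funext j
        by_cases hj : j = c
        · rw [hj, hc]; rfl
        · by_cases hj' : j = c'
          · rw [hj', h0]; rfl
          · exact h5 j hj hj'
      have hηc : ηc c = 0 := by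
        rw [hc, mul_zero, sub_zero] at hdet
        rcases mul_eq_zero.1 hdet with h | h
        · exact h
        · exact absurd h hc'
      have heq : (ηc c' / θc c') • θc = ηc := by
        funext j
        rw [Pi.smul_apply, smul_eq_mul]
        by_cases hj : j = c
        · rw [hj, hc, hηc, mul_zero]
        · by_cases hj' : j = c'
          · rw [hj', div_mul_cancel₀ _ hc']
          · rw [h5 j hj hj', h2 j hj hj', mul_zero]
      refine ⟨ηc c' / θc c', ?_, heq⟩
      intro h0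
      rw [h0, zero_smul] at heq
      exact h2' heq.symm
    · have heq : (ηc c / θc c) • θc = ηc := by
        funext j
        rw [Pi.smul_apply, smul_eq_mul]
        by_cases hj : j = c
        · rw [hj, div_mul_cancel₀ _ hc]
        · by_cases hj' : j = c'
          · rw [hj']
            field_simp
            linarith
          · rw [h5 j hj hj', h2 j hj hj', mul_zero]
      refine ⟨ηc c / θc c, ?_, heq⟩
      intro h0
      rw [h0, zero_smul] at heq
      exact h2' heq.symm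
  obtain ⟨l, hl, hl'⟩ := hprop
  refine ⟨l, hl, ?_⟩
  rw [mulVec_smul, h6, ← mulVec_smul, hl']


theorem On.symm {ξ : Fin 12 → ℝ} {p q : Fin 12} (h : On ξ p q) : On ξ q p :=
  fun j h1 h2 => h j h2 h1

theorem On.smul {ξ : Fin 12 → ℝ} {p q : Fin 12} (h : On ξ p q) (l : ℝ) : On (l • ξ) p q := by
  intro j h1 h2
  rw [Pi.smul_apply, h j h1 h2, smul_zero]

theorem exists_ne_of_on {ξ : Fin 12 → ℝ} {p q : Fin 12} (h : On ξ p q) (h0 : ξ ≠ 0) :
    ∃ i, (i = p ∨ i = q) ∧ ξ i ≠ 0 := by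
  by_contra hno
  push Not at hno
  apply h0
  funext j
  by_cases h1 : j = p
  · exact hno j (Or.inl h1)
  · by_cases h2 : j = q
    · exact hno j (Or.inr h2)
    · exact h j h1 h2

theorem prod_zero {ξ η : Fin 12 → ℝ} {p q r s : Fin 12} (h1 : On ξ p q) (h2 : On η r s)
    (hd : ∀ i j : Fin 12, (i = p ∨ i = q) → (j = r ∨ j = s) → ¬ (i = j ∨ G.Adj i j))
    {i j : Fin 12} (hij : i = j ∨ G.Adj i j) : ξ i * η j = 0 ∧ η i * ξ j = 0 := by
  have key : ∀ i j : Fin 12, (i = j ∨ G.Adj i j) → ξ i * η j = 0 := by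
    intro i j hij
    by_cases hi : i = p ∨ i = q
    · by_cases hj : j = r ∨ j = s
      · exact absurd hij (hd i j hi hj)
      · rw [not_or] at hj
        rw [h2 j hj.1 hj.2, mul_zero]
    · rw [not_or] at hi
      rw [h1 i hi.1 hi.2, zero_mul]
  refine ⟨key i j hij, ?_⟩
  rw [mul_comm]
  apply key j i
  rcases hij with h | h
  · exact Or.inl h.symm
  · exact Or.inr h.symm

/-- Every matrix with the pattern of `G` and corank at least seven has a nonzero stress. -/
theorem exists_stress (hs : M.IsSymm) (hn : ∀ i j, G.Adj i j → M i j < 0)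
    (hz : ∀ i j, i ≠ j → ¬ G.Adj i j → M i j = 0) (hc : 7 ≤ corank M) :
    ∃ X : Matrix (Fin 12) (Fin 12) ℝ, X.IsSymm ∧ (∀ i j, (i = j ∨ G.Adj i j) → X i j = 0) ∧
      M * X = 0 ∧ X ≠ 0 := by
  have hne : ∀ i j, G.Adj i j → M i j ≠ 0 := fun i j h => (hn i j h).ne
  -- independence of the classes
  have i0 : ∀ ξ, On ξ 0 1 → M *ᵥ ξ = 0 → ξ = 0 := fun ξ h1 h2 =>
    indep (p := 0) (q := 1) (d := 4) (f := 6) hs (by decide) (hz _ _ (by decide) (by decide))
      (hne _ _ (by decide)) (hne _ _ (by decide)) h1 h2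
  have i1 : ∀ ξ, On ξ 2 3 → M *ᵥ ξ = 0 → ξ = 0 := fun ξ h1 h2 =>
    indep (p := 2) (q := 3) (d := 6) (f := 8) hs (by decide) (hz _ _ (by decide) (by decide))
      (hne _ _ (by decide)) (hne _ _ (by decide)) h1 h2
  have i2 : ∀ ξ, On ξ 4 5 → M *ᵥ ξ = 0 → ξ = 0 := fun ξ h1 h2 =>
    indep (p := 4) (q := 5) (d := 0) (f := 10) hs (by decide) (hz _ _ (by decide) (by decide))
      (hne _ _ (by decide)) (hne _ _ (by decide)) h1 h2
  have i3 : ∀ ξ, On ξ 6 7 → M *ᵥ ξ = 0 → ξ = 0 := fun ξ h1 h2 =>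
    indep (p := 6) (q := 7) (d := 2) (f := 0) hs (by decide) (hz _ _ (by decide) (by decide))
      (hne _ _ (by decide)) (hne _ _ (by decide)) h1 h2
  have i4 : ∀ ξ, On ξ 8 9 → M *ᵥ ξ = 0 → ξ = 0 := fun ξ h1 h2 =>
    indep (p := 9) (q := 8) (d := 5) (f := 2) hs (by decide) (hz _ _ (by decide) (by decide))
      (hne _ _ (by decide)) (hne _ _ (by decide)) h1.symm h2
  have i5 : ∀ ξ, On ξ 10 11 → M *ᵥ ξ = 0 → ξ = 0 := fun ξ h1 h2 =>
    indep (p := 11) (q := 10) (d := 7) (f := 4) hs (by decide) (hz _ _ (by decide) (by decide))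
      (hne _ _ (by decide)) (hne _ _ (by decide)) h1.symm h2
  -- the relations
  obtain ⟨x2, x4, s2, s4, n2, n4, r24⟩ := pairdep (p := 6) (p' := 7) (d := 2) (f := 0)
    (a := 4) (a' := 5) (b := 8) (b' := 9) hs hc (by decide)
    (hz _ _ (by decide) (by decide)) (hne _ _ (by decide)) (hne _ _ (by decide))
    ⟨hz _ _ (by decide) (by decide), hz _ _ (by decide) (by decide),
      hz _ _ (by decide) (by decide), hz _ _ (by decide) (by decide)⟩
    ⟨hz _ _ (by decide) (by decide), hz _ _ (by decide) (by decide),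
      hz _ _ (by decide) (by decide), hz _ _ (by decide) (by decide)⟩ i2 i4
  obtain ⟨x0, y4, s0, t4, n0, m4, r04⟩ := pairdep (p := 11) (p' := 10) (d := 7) (f := 4)
    (a := 0) (a' := 1) (b := 8) (b' := 9) hs hc (by decide)
    (hz _ _ (by decide) (by decide)) (hne _ _ (by decide)) (hne _ _ (by decide))
    ⟨hz _ _ (by decide) (by decide), hz _ _ (by decide) (by decide),
      hz _ _ (by decide) (by decide), hz _ _ (by decide) (by decide)⟩
    ⟨hz _ _ (by decide) (by decide), hz _ _ (by decide) (by decide),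
      hz _ _ (by decide) (by decide), hz _ _ (by decide) (by decide)⟩ i0 i4
  obtain ⟨x3, x5, s3, s5, n3, n5, r35⟩ := pairdep (p := 9) (p' := 8) (d := 5) (f := 2)
    (a := 6) (a' := 7) (b := 10) (b' := 11) hs hc (by decide)
    (hz _ _ (by decide) (by decide)) (hne _ _ (by decide)) (hne _ _ (by decide))
    ⟨hz _ _ (by decide) (by decide), hz _ _ (by decide) (by decide),
      hz _ _ (by decide) (by decide), hz _ _ (by decide) (by decide)⟩
    ⟨hz _ _ (by decide) (by decide), hz _ _ (by decide) (by decide),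
      hz _ _ (by decide) (by decide), hz _ _ (by decide) (by decide)⟩ i3 i5
  obtain ⟨x1, y5, s1, t5, n1, m5, r15⟩ := pairdep (p := 0) (p' := 1) (d := 4) (f := 6)
    (a := 2) (a' := 3) (b := 10) (b' := 11) hs hc (by decide)
    (hz _ _ (by decide) (by decide)) (hne _ _ (by decide)) (hne _ _ (by decide))
    ⟨hz _ _ (by decide) (by decide), hz _ _ (by decide) (by decide),
      hz _ _ (by decide) (by decide), hz _ _ (by decide) (by decide)⟩
    ⟨hz _ _ (by decide) (by decide), hz _ _ (by decide) (by decide),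
      hz _ _ (by decide) (by decide), hz _ _ (by decide) (by decide)⟩ i1 i5
  obtain ⟨l, hl, hl'⟩ := concur (M := M) (t := 2) (a := 0) (a' := 1) (b := 4) (b' := 5) (c := 8)
    (c' := 9) (by decide) (by decide) (by decide)
    ⟨hz _ _ (by decide) (by decide), hz _ _ (by decide) (by decide)⟩
    ⟨hz _ _ (by decide) (by decide), hz _ _ (by decide) (by decide)⟩
    (hne _ _ (by decide)) s2 s4 n4 r24 s0 t4 m4 r04
  obtain ⟨k, hk, hk'⟩ := concur (M := M) (t := 4) (a := 2) (a' := 3) (b := 6) (b' := 7) (c := 10)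
    (c' := 11) (by decide) (by decide) (by decide)
    ⟨hz _ _ (by decide) (by decide), hz _ _ (by decide) (by decide)⟩
    ⟨hz _ _ (by decide) (by decide), hz _ _ (by decide) (by decide)⟩
    (hne _ _ (by decide)) s3 s5 n5 r35 s1 t5 m5 r15
  set z0 := l • x0 with hz0
  set z1 := k • x1 with hz1
  have o0 : On z0 0 1 := s0.smul l
  have o1 : On z1 2 3 := s1.smul k
  have p0 : z0 ≠ 0 := smul_ne_zero hl n0
  have p1 : z1 ≠ 0 := smul_ne_zero hk n1
  set ρ := M *ᵥ x4 with hρ
  set σ := M *ᵥ x5 with hσ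
  refine ⟨(vecMulVec z0 z1 + vecMulVec z1 z0) - (vecMulVec z1 x2 + vecMulVec x2 z1) +
    (vecMulVec x2 x3 + vecMulVec x3 x2) - (vecMulVec x3 x4 + vecMulVec x4 x3) +
    (vecMulVec x4 x5 + vecMulVec x5 x4) - (vecMulVec x5 z0 + vecMulVec z0 x5), ?_, ?_, ?_, ?_⟩
  · apply Matrix.IsSymm.ext
    intro i j
    simp only [Matrix.add_apply, Matrix.sub_apply, vecMulVec_apply]
    ring
  · intro i j hij
    simp only [Matrix.add_apply, Matrix.sub_apply, vecMulVec_apply]
    obtain ⟨a1, a2⟩ := prod_zero o0 o1 (by decide) hij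
    obtain ⟨b1, b2⟩ := prod_zero o1 s2 (by decide) hij
    obtain ⟨c1, c2⟩ := prod_zero s2 s3 (by decide) hij
    obtain ⟨d1, d2⟩ := prod_zero s3 s4 (by decide) hij
    obtain ⟨e1, e2⟩ := prod_zero s4 s5 (by decide) hij
    obtain ⟨f1, f2⟩ := prod_zero s5 o0 (by decide) hij
    rw [a1, a2, b1, b2, c1, c2, d1, d2, e1, e2, f1, f2]
    ring
  · have hmv : ∀ u v : Fin 12 → ℝ, M * vecMulVec u v = vecMulVec (M *ᵥ u) v := by
      intro u v
      rw [mul_vecMulVec]
    simp only [Matrix.mul_add, Matrix.mul_sub, hmv]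
    rw [hl', hk', r24, r35]
    ext i j
    simp only [Matrix.add_apply, Matrix.sub_apply, vecMulVec_apply, Matrix.zero_apply]
    ring
  · intro h0
    obtain ⟨i, hi, hi'⟩ := exists_ne_of_on o0 p0
    obtain ⟨j, hj, hj'⟩ := exists_ne_of_on o1 p1
    have h1 := congrFun (congrFun h0 i) j
    simp only [Matrix.add_apply, Matrix.sub_apply, vecMulVec_apply, Matrix.zero_apply] at h1
    have hvan : ∀ {ξ : Fin 12 → ℝ} {p q : Fin 12}, On ξ p q → (¬ (i = p ∨ i = q)) → ξ i = 0 :=
      fun h hh => h i (fun e => hh (Or.inl e)) (fun e => hh (Or.inr e))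
    have hvan' : ∀ {ξ : Fin 12 → ℝ} {p q : Fin 12}, On ξ p q → (¬ (j = p ∨ j = q)) → ξ j = 0 :=
      fun h hh => h j (fun e => hh (Or.inl e)) (fun e => hh (Or.inr e))
    have g1 : z1 i = 0 := hvan o1 (by rcases hi with rfl | rfl <;> decide)
    have g2 : x2 i = 0 := hvan s2 (by rcases hi with rfl | rfl <;> decide)
    have g3 : x3 i = 0 := hvan s3 (by rcases hi with rfl | rfl <;> decide)
    have g4 : x4 i = 0 := hvan s4 (by rcases hi with rfl | rfl <;> decide)
    have g5 : x5 i = 0 := hvan s5 (by rcases hi with rfl | rfl <;> decide)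
    have g6 : x5 j = 0 := hvan' s5 (by rcases hj with rfl | rfl <;> decide)
    rw [g1, g2, g3, g4, g5, g6] at h1
    simp only [zero_mul, mul_zero, add_zero, sub_zero] at h1
    exact mul_ne_zero hi' hj' h1

end Stress

end Pool.Agent.CdV.Counter
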